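import Pool.Agent.N447.SS.Pack2

/-!
# MP_993212_an: strong shift equivalence for irreducible matrices `A` with `A - μ I` of rank one

No coprimality of the content of `A - μ I` and `μ` is assumed, and for `μ > 0` the content may be
arbitrary (for instance `1`) if some entry of `A - μ I` is small with respect to the trace.
Strong shift equivalence, shift equivalence over `ℕ` and shift equivalence over `ℤ` coincide; a
complete invariant is given by the size, the trace and the divisors prime to `μ` of the content.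
-/

set_option autoImplicit false

namespace Pool.Agent.Results.MP_993212_an.RankOneAnyContent

open Matrix

/-- Elementary equivalence of square matrices over `ℕ`: `A = R S`, `B = S R` for rectangular
matrices `R`, `S` over `ℕ`. -/
def Elem (X Y : Σ n : ℕ, Matrix (Fin n) (Fin n) ℕ) : Prop :=
  ∃ (R : Matrix (Fin X.1) (Fin Y.1) ℕ) (S : Matrix (Fin Y.1) (Fin X.1) ℕ),
    X.2 = R * S ∧ Y.2 = S * R

/-- Strong shift equivalence over `ℕ` (a finite chain of elementary equivalences). -/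
def SSE {n m : ℕ} (A : Matrix (Fin n) (Fin n) ℕ) (B : Matrix (Fin m) (Fin m) ℕ) : Prop :=
  Relation.TransGen Elem ⟨n, A⟩ ⟨m, B⟩

/-- Shift equivalence of square matrices over a semiring `k` (used for `k = ℕ` and `k = ℤ`). -/
def SE (k : Type) [Semiring k] {n m : ℕ} (A : Matrix (Fin n) (Fin n) k)
    (B : Matrix (Fin m) (Fin m) k) : Prop :=
  ∃ l, 1 ≤ l ∧ ∃ (R : Matrix (Fin n) (Fin m) k) (S : Matrix (Fin m) (Fin n) k),
    A ^ l = R * S ∧ B ^ l = S * R ∧ A * R = R * B ∧ S * A = B * S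

/-- The matrix `A` viewed over `ℤ`. -/
def toZ {n : ℕ} (A : Matrix (Fin n) (Fin n) ℕ) : Matrix (Fin n) (Fin n) ℤ :=
  A.map (Nat.cast : ℕ → ℤ)

/-- The integer matrix `A - μ I`. -/
def Sub {n : ℕ} (μ : ℤ) (A : Matrix (Fin n) (Fin n) ℕ) : Matrix (Fin n) (Fin n) ℤ :=
  toZ A - μ • (1 : Matrix (Fin n) (Fin n) ℤ)

/-- `A` is irreducible, and all `2 × 2` minors of `A - μ I` vanish. -/
def RankOne {n : ℕ} (μ : ℤ) (A : Matrix (Fin n) (Fin n) ℕ) : Prop :=
  (∀ i j, ∃ k, (A ^ k) i j ≠ 0) ∧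
    ∀ i j k l, Sub μ A i j * Sub μ A k l = Sub μ A i l * Sub μ A k j

/-- The greatest common divisor of the entries of `A - μ I`. -/
def content {n : ℕ} (μ : ℤ) (A : Matrix (Fin n) (Fin n) ℕ) : ℕ :=
  Finset.univ.gcd fun p : Fin n × Fin n => (Sub μ A p.1 p.2).natAbs

/-- Either the content of `A - μ I` is at least `|μ|`, or `μ > 0` and some entry of `A - μ I` is
small: `64 n³ μ⁴` times this entry is at most the trace of `A - μ I`. -/
def Fine {n : ℕ} (μ : ℤ) (A : Matrix (Fin n) (Fin n) ℕ) : Prop :=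
  μ.natAbs ≤ content μ A ∨
    (0 < μ ∧ ∃ i j, 64 * (n : ℤ) ^ 3 * μ ^ 4 * Sub μ A i j ≤ (Sub μ A).trace)

theorem result (n m : ℕ) (μ : ℤ) (A : Matrix (Fin n) (Fin n) ℕ) (B : Matrix (Fin m) (Fin m) ℕ)
    (hn : 3 ≤ n) (hm : 3 ≤ m) (hμ : μ ≠ 0) (hA : RankOne μ A) (hB : RankOne μ B)
    (hN : 9 * (n : ℤ) * μ ^ 2 ≤ (Sub μ A).trace) (fA : Fine μ A) (fB : Fine μ B) :
    (SSE A B ↔ SE ℕ A B) ∧ (SE ℕ A B ↔ SE ℤ (toZ A) (toZ B)) ∧
    (SSE A B ↔ n = m ∧ A.trace = B.trace ∧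
      ∀ c : ℕ, c.Coprime μ.natAbs → (c ∣ content μ A ↔ c ∣ content μ B)) := by
  have h1 : SSE A B → SE ℕ A B := fun h =>
    Pool.Agent.Y321.SE2.se_of_transGen (fun _ _ hXY => hXY) h
  have h2 : SE ℕ A B → SE ℤ (toZ A) (toZ B) := Pool.Agent.Y321.SE2.seZ_of_seN
  have h3 : Pool.Agent.TH441.SSE2.Q (toZ A) (toZ B) → SSE A B := fun h =>
    Pool.Agent.Y321.SE2.transGen_of_Q (fun _ _ R S => ⟨R, S, rfl, rfl⟩) A B h
  obtain ⟨f1, f2⟩ := Pool.Agent.N447.SS.fin_two hn hm hμ hA.1 hB.1 hA.2 hB.2 hN fA fB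
  have h4 : SE ℤ (toZ A) (toZ B) → SSE A B := fun h => h3 (f2 (f1 h))
  exact ⟨⟨h1, fun h => h4 (h2 h)⟩, ⟨h2, fun h => h1 (h4 h)⟩,
    ⟨fun h => f1 (h2 (h1 h)), fun h => h3 (f2 h)⟩⟩

end Pool.Agent.Results.MP_993212_an.RankOneAnyContent
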