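import Pool.Agent.N50.RP.Fin

/-!
# MP_993212_an: strong shift equivalence of irreducible matrices with `A - μ I` of rank one

In size at least three, for `|μ| ≤ 2` without any further condition and for every `μ ≠ 0` if some
integer `g ≥ |μ|` divides all entries of `A - μ I` and of `B - μ I`, strong shift equivalence over
`ℕ`, shift equivalence over `ℕ` and shift equivalence over `ℤ` coincide, and the size, the trace and
the divisors prime to `μ` of the gcd of the entries of `A - μ I` form a complete invariant.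

The starting result `RankOneShifts` is the case `|μ| = 1`, and the case of a content at least `|μ|`
and prime to `μ` (where the whole content is an invariant). New are moves by diagonal matrices
`diag (1, .., p, .., 1)`, `p ∣ μ`, which change the content, and a reduction for `μ = ± 2`.
-/

set_option autoImplicit false

namespace Pool.Agent.Results.MP_993212_an.RankOnePerturbations

open Matrix

/-- Elementary equivalence of square matrices over `ℕ`: `A = R S`, `B = S R` for rectangular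
matrices `R`, `S` over `ℕ`. -/
def Elem (X Y : Σ n : ℕ, Matrix (Fin n) (Fin n) ℕ) : Prop :=
  ∃ (R : Matrix (Fin X.1) (Fin Y.1) ℕ) (S : Matrix (Fin Y.1) (Fin X.1) ℕ),
    X.2 = R * S ∧ Y.2 = S * R

/-- Strong shift equivalence over `ℕ` (a finite chain of elementary equivalences). -/
def SSE {n m : ℕ} (A : Matrix (Fin n) (Fin n) ℕ) (B : Matrix (Fin m) (Fin m) ℕ) : Prop :=
  Relation.TransGen Elem ⟨n, A⟩ ⟨m, B⟩

/-- Shift equivalence of square matrices over a semiring `k` (used for `k = ℕ` and `k = ℤ`). -/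
def SE (k : Type) [Semiring k] {n m : ℕ} (A : Matrix (Fin n) (Fin n) k)
    (B : Matrix (Fin m) (Fin m) k) : Prop :=
  ∃ l, 1 ≤ l ∧ ∃ (R : Matrix (Fin n) (Fin m) k) (S : Matrix (Fin m) (Fin n) k),
    A ^ l = R * S ∧ B ^ l = S * R ∧ A * R = R * B ∧ S * A = B * S

/-- The matrix `A` viewed over `ℤ`. -/
def toZ {n : ℕ} (A : Matrix (Fin n) (Fin n) ℕ) : Matrix (Fin n) (Fin n) ℤ :=
  A.map (Nat.cast : ℕ → ℤ)

/-- The integer matrix `A - μ I`. -/
def Sub {n : ℕ} (μ : ℤ) (A : Matrix (Fin n) (Fin n) ℕ) : Matrix (Fin n) (Fin n) ℤ :=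
  toZ A - μ • (1 : Matrix (Fin n) (Fin n) ℤ)

/-- `A` has size at least three, is irreducible, and all `2 × 2` minors of `A - μ I` vanish. -/
def RankOne {n : ℕ} (μ : ℤ) (A : Matrix (Fin n) (Fin n) ℕ) : Prop :=
  3 ≤ n ∧ (∀ i j, ∃ k, (A ^ k) i j ≠ 0) ∧
    ∀ i j k l, Sub μ A i j * Sub μ A k l = Sub μ A i l * Sub μ A k j

/-- The greatest common divisor of the entries of `A - μ I`. -/
def content {n : ℕ} (μ : ℤ) (A : Matrix (Fin n) (Fin n) ℕ) : ℕ :=
  Finset.univ.gcd fun p : Fin n × Fin n => (Sub μ A p.1 p.2).natAbs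

theorem result (n m : ℕ) (μ : ℤ) (hμ : μ ≠ 0) (A : Matrix (Fin n) (Fin n) ℕ)
    (B : Matrix (Fin m) (Fin m) ℕ) (hA : RankOne μ A) (hB : RankOne μ B)
    (h : μ.natAbs ≤ 2 ∨ μ.natAbs ≤ Nat.gcd (content μ A) (content μ B)) :
    (SSE A B ↔ SE ℕ A B) ∧ (SE ℕ A B ↔ SE ℤ (toZ A) (toZ B)) ∧
      (SSE A B ↔ n = m ∧ A.trace = B.trace ∧
        ∀ c : ℕ, c.Coprime μ.natAbs → (c ∣ content μ A ↔ c ∣ content μ B)) := by
  have h1 : SSE A B → SE ℕ A B := fun h =>
    Pool.Agent.Y321.SE2.se_of_transGen (fun _ _ hXY => hXY) h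
  have h2 : SE ℕ A B → SE ℤ (toZ A) (toZ B) := Pool.Agent.Y321.SE2.seZ_of_seN
  have h3 : Pool.Agent.TH441.SSE2.Q (toZ A) (toZ B) → SSE A B := fun h =>
    Pool.Agent.Y321.SE2.transGen_of_Q (fun _ _ R S => ⟨R, S, rfl, rfl⟩) A B h
  have hA' : Pool.Agent.R647.SS.RO μ A := ⟨by have := hA.1; omega, hA.2.1, hA.2.2⟩
  have hB' : Pool.Agent.R647.SS.RO μ B := ⟨by have := hB.1; omega, hB.2.1, hB.2.2⟩
  obtain ⟨f1, f2⟩ := Pool.Agent.N50.RP.final hA.1 hB.1 hμ hA' hB'
  have f3 := f2 h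
  exact ⟨⟨h1, fun k => h3 (f3 (f1 (h2 k)))⟩, ⟨h2, fun k => h1 (h3 (f3 (f1 k)))⟩,
    ⟨fun k => f1 (h2 (h1 k)), fun k => h3 (f3 k)⟩⟩

end Pool.Agent.Results.MP_993212_an.RankOnePerturbations
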